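import Pool.Agent.AFX.Stmts

/-!
# Squad AFX, row HN3 (Hanf number of failures of amalgamation)
-/

open FirstOrder FirstOrder.Language Cardinal Set

universe u

namespace Pool.Agent.AFX.H45

open Pool.Agent.AEC Pool.Agent.AFX

theorem hn3 (sml : SmlStmt.{u}) (ln2 : Ln2Stmt.{u}) (trb : TrbStmt.{u}) : Hn3Stmt.{u} := by
  intro κ
  classical
  let T := Σ F : ℕ → Set κ.out, Σ R : ℕ → Set κ.out, AEC (codeLang F R) κ
  have hsm : ∀ F R : ℕ → Set κ.out, Small.{u} (AEC (codeLang F R) κ) := fun F R => sml _ κ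
  have hT : Small.{u} T := inferInstance
  let b : T → Cardinal.{u} := fun t =>
    if h : ∃ θ : Cardinal.{u}, Bad t.2.2 θ then h.choose else 0
  obtain ⟨μ, hμ⟩ : BddAbove (Set.range b) := Cardinal.bddAbove_of_small
  refine ⟨μ, fun L K hK => ?_⟩
  obtain ⟨F, R, K0, Φ, v, h1, h2, h3⟩ := ln2 L κ K
  have htr := trb L (codeLang F R) κ K K0 Φ v h1 h2 h3
  obtain ⟨θ, hθ⟩ := hK
  have hb : ∃ θ : Cardinal.{u}, Bad K0 θ := ⟨θ, (htr θ).1 hθ⟩
  have h4 : b ⟨F, R, K0⟩ = hb.choose := dif_pos hb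
  refine ⟨b ⟨F, R, K0⟩, hμ ⟨_, rfl⟩, ?_⟩
  rw [h4]
  exact (htr _).2 hb.choose_spec

end Pool.Agent.AFX.H45
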